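import Pool.Agent.Helper53.NB.SK1

/-!
# Forms over a countable good subring (block FRM)
-/

open scoped TensorProduct

namespace Pool.Agent.Helper56.NB

open Pool.Agent.H35SD Pool.Agent.Helper56.SDD

universe u v

theorem closure_countable {S : Type*} [Monoid S] {A : Set S} (hA : A.Countable) :
    Countable (Submonoid.closure A) := by
  have hA' : Countable A := hA.to_subtype
  rw [Submonoid.closure_eq_mrange]
  have : Countable (FreeMonoid A) := inferInstanceAs (Countable (List A))
  exact (MonoidHom.mrangeRestrict_surjective _).countable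

/-- A countable family generating the relations. -/
theorem exists_relations {C M N : Type*} [CommRing C] [IsNoetherianRing C] [Countable M]
    [AddCommGroup N] [Module C N] (φ : (M →₀ C) →ₗ[C] N) :
    ∃ G : Set (M →₀ C), G.Countable ∧ Submodule.span C G = LinearMap.ker φ := by
  classical
  have h1 : ∀ F : Finset M, ∃ G : Finset (M →₀ C),
      Submodule.span C (G : Set (M →₀ C)) = LinearMap.ker φ ⊓ Finsupp.supported C C (F : Set M) := by
    intro F
    have hn : IsNoetherian C (Finsupp.supported C C (F : Set M)) :=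
      isNoetherian_of_linearEquiv (Finsupp.supportedEquivFinsupp (F : Set M)).symm
    exact isNoetherian_submodule.mp hn _ inf_le_right
  choose G hG using h1
  refine ⟨⋃ F : Finset M, (G F : Set (M →₀ C)),
    Set.countable_iUnion fun F => (G F).countable_toSet, le_antisymm ?_ ?_⟩
  · rw [Submodule.span_le]
    intro x hx
    obtain ⟨F, hF⟩ := Set.mem_iUnion.mp hx
    have h2 : x ∈ Submodule.span C (G F : Set (M →₀ C)) := Submodule.subset_span hF
    rw [hG] at h2
    exact h2.1
  · intro x hx
    have h2 : x ∈ LinearMap.ker φ ⊓ Finsupp.supported C C ((x.support : Finset M) : Set M) :=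
      ⟨hx, (Finsupp.mem_supported C x).mpr (le_refl _)⟩
    rw [← hG] at h2
    exact Submodule.span_mono (Set.subset_iUnion (fun F : Finset M => (G F : Set (M →₀ C))) _) h2

theorem exists_form_noeth {C S : Type u} [CommRing C] [IsNoetherianRing C] [Ring S] [Algebra C S]
    (hS : ∃ A : Set S, A.Countable ∧ Algebra.adjoin C A = ⊤) (A : Set S) (hA : A.Countable) :
    ∃ (C₀ : Subring C) (S₀ : Subalgebra C₀ S), Countable C₀ ∧ GoodSub C₀ ∧ Countable S₀ ∧
      A ⊆ (S₀ : Set S) ∧ ∃ e : C ⊗[C₀] S₀ ≃+* S, ∀ (a : C) (s : S₀), e (a ⊗ₜ s) = a • (s : S) := by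
  classical
  obtain ⟨A', hA', hadj⟩ := hS
  set M : Submonoid S := Submonoid.closure (A' ∪ A) with hM
  have hMc : Countable M := closure_countable (hA'.union hA)
  have hspan : Submodule.span C (M : Set S) = ⊤ := by
    rw [hM, ← Algebra.adjoin_eq_span]
    have : Algebra.adjoin C (A' ∪ A) = ⊤ := by
      rw [eq_top_iff, ← hadj]
      exact Algebra.adjoin_mono Set.subset_union_left
    rw [this]
    rfl
  let φ : (M →₀ C) →ₗ[C] S := Finsupp.linearCombination C (fun m : M => (m : S))
  obtain ⟨G, hGc, hG⟩ := exists_relations φ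
  obtain ⟨C₀, hZ, hC₀, hgood⟩ := exists_goodSub (⋃ r ∈ G, Set.range (fun m : M => r m))
    (hGc.biUnion fun r _ => Set.countable_range _)
  have hGC : ∀ r ∈ G, ∀ m : M, r m ∈ C₀ := fun r hr m =>
    hZ (Set.mem_iUnion₂.mpr ⟨r, hr, ⟨m, rfl⟩⟩)
  let S₀ : Subalgebra C₀ S := Algebra.adjoin C₀ (M : Set S)
  have hS₀ : Subalgebra.toSubmodule S₀ = Submodule.span C₀ (M : Set S) := by
    change Subalgebra.toSubmodule (Algebra.adjoin C₀ (M : Set S)) = _
    rw [Algebra.adjoin_eq_span, Submonoid.closure_eq]
  have hmS : ∀ m : M, (m : S) ∈ S₀ := fun m => Algebra.subset_adjoin m.2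
  -- elements of `S₀`
  have hrep : ∀ s : S₀, ∃ b : M →₀ C₀, s = ∑ m ∈ b.support, b m • (⟨m, hmS m⟩ : S₀) := by
    intro s
    have h1 : (s : S) ∈ Submodule.span C₀ (M : Set S) := by
      rw [← hS₀]
      exact s.2
    have h2 : (M : Set S) = Set.range (fun m : M => (m : S)) := by simp
    rw [h2, Finsupp.mem_span_range_iff_exists_finsupp] at h1
    obtain ⟨b, hb⟩ := h1
    refine ⟨b, Subtype.ext ?_⟩
    rw [← hb, Finsupp.sum, AddSubmonoidClass.coe_finsetSum]
    rfl
  have hcount : Countable S₀ := by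
    have hsur : Function.Surjective
        (fun b : M →₀ C₀ => ∑ m ∈ b.support, b m • (⟨m, hmS m⟩ : S₀)) := by
      intro s
      obtain ⟨b, hb⟩ := hrep s
      exact ⟨b, hb.symm⟩
    exact hsur.countable
  refine ⟨C₀, S₀, hC₀, hgood, hcount, fun a ha => ?_, ?_⟩
  · exact hmS ⟨a, Submonoid.subset_closure (Or.inr ha)⟩
  -- the map
  let f : C ⊗[C₀] S₀ →ₐ[C] S := Algebra.TensorProduct.lift (Algebra.ofId C S) S₀.val
    (fun x y => Algebra.commutes x (y : S))
  have hf : ∀ (a : C) (s : S₀), f (a ⊗ₜ s) = a • (s : S) := fun a s => by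
    rw [Algebra.smul_def]
    rfl
  let Φ : (M →₀ C) →ₗ[C] C ⊗[C₀] S₀ :=
    Finsupp.linearCombination C (fun m : M => (1 : C) ⊗ₜ[C₀] (⟨m, hmS m⟩ : S₀))
  have hΦf : ∀ b, f (Φ b) = φ b := by
    intro b
    simp only [Φ, φ, Finsupp.linearCombination_apply, Finsupp.sum, map_sum, map_smul, hf, one_smul]
  have hΦ : Function.Surjective Φ := by
    intro x
    induction x using TensorProduct.induction_on with
    | zero => exact ⟨0, map_zero _⟩
    | tmul c s =>
      obtain ⟨b, rfl⟩ := hrep s
      refine ⟨∑ m ∈ b.support, Finsupp.single m (c * (b m : C)), ?_⟩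
      rw [map_sum, TensorProduct.tmul_sum]
      refine Finset.sum_congr rfl fun m _ => ?_
      rw [Finsupp.linearCombination_single, TensorProduct.smul_tmul', smul_eq_mul, mul_one,
        ← TensorProduct.smul_tmul]
      congr 1
      rw [Subring.smul_def, smul_eq_mul, mul_comm]
    | add x y hx hy =>
      obtain ⟨b, rfl⟩ := hx
      obtain ⟨b', rfl⟩ := hy
      exact ⟨b + b', map_add _ _ _⟩
  have hker : LinearMap.ker φ ≤ LinearMap.ker Φ := by
    rw [← hG, Submodule.span_le]
    intro r hr
    have hr0 : φ r = 0 := by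
      have : r ∈ LinearMap.ker φ := by
        rw [← hG]; exact Submodule.subset_span hr
      exact this
    change Φ r = 0
    have h1 : Φ r = (1 : C) ⊗ₜ[C₀] (∑ m ∈ r.support, (⟨r m, hGC r hr m⟩ : C₀) •
        (⟨m, hmS m⟩ : S₀)) := by
      rw [TensorProduct.tmul_sum]
      change Finsupp.linearCombination C _ r = _
      rw [Finsupp.linearCombination_apply, Finsupp.sum]
      refine Finset.sum_congr rfl fun m _ => ?_
      rw [TensorProduct.smul_tmul', ← TensorProduct.smul_tmul]
      rfl
    have h2 : (∑ m ∈ r.support, (⟨r m, hGC r hr m⟩ : C₀) • (⟨m, hmS m⟩ : S₀)) = 0 := by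
      apply Subtype.ext
      rw [AddSubmonoidClass.coe_finsetSum]
      refine Eq.trans ?_ hr0
      change _ = Finsupp.linearCombination C _ r
      rw [Finsupp.linearCombination_apply, Finsupp.sum]
      rfl
    rw [h1, h2, TensorProduct.tmul_zero]
  have hinj : Function.Injective f := by
    rw [injective_iff_map_eq_zero]
    intro x hx
    obtain ⟨b, rfl⟩ := hΦ x
    rw [hΦf] at hx
    exact hker hx
  have hsurj : Function.Surjective f := by
    intro s
    have h1 : s ∈ Submodule.span C (M : Set S) := by rw [hspan]; trivial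
    have h2 : (M : Set S) = Set.range (fun m : M => (m : S)) := by simp
    rw [h2, Finsupp.mem_span_range_iff_exists_finsupp] at h1
    obtain ⟨b, hb⟩ := h1
    refine ⟨Φ b, ?_⟩
    rw [hΦf]
    exact hb
  exact ⟨RingEquiv.ofBijective f.toRingHom ⟨hinj, hsurj⟩, hf⟩

end Pool.Agent.Helper56.NB
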