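import Pool.Agent.Helper56.NB.Defs

/-!
# pp conditions in the corner of an injective module after flat base change (block SAT)
-/

open scoped TensorProduct

namespace Pool.Agent.Helper56.NB

open Pool.Agent.H35SD Pool.Agent.Helper56.SDD

universe u v

/-- Solvability of a linear system in an injective module. -/
theorem solve_of_injective {Λ : Type u} [Ring Λ] {W : Type u} [AddCommGroup W] [Module Λ W]
    (hW : Module.Injective Λ W) {e m : ℕ} (A : Fin e → Fin m → Λ) (b : Fin e → W)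
    (hb : ∀ c : Fin e → Λ, (∀ l, ∑ j, c j * A j l = 0) → ∑ j, c j • b j = 0) :
    ∃ y : Fin m → W, ∀ j, ∑ l, A j l • y l = b j := by
  classical
  let g : (Fin e → Λ) →ₗ[Λ] (Fin m → Λ) :=
    { toFun := fun c l => ∑ j, c j * A j l
      map_add' := by
        intro z z'
        ext1 l
        simp only [Pi.add_apply, add_mul, Finset.sum_add_distrib]
      map_smul' := by
        intro f z
        ext1 l
        simp only [Pi.smul_apply, smul_eq_mul, RingHom.id_apply, Finset.mul_sum, mul_assoc] }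
  let k : (Fin e → Λ) →ₗ[Λ] W :=
    { toFun := fun c => ∑ j, c j • b j
      map_add' := by
        intro z z'
        simp only [Pi.add_apply, add_smul, Finset.sum_add_distrib]
      map_smul' := by
        intro f z
        simp only [Pi.smul_apply, smul_eq_mul, RingHom.id_apply, Finset.smul_sum, mul_smul] }
  have hker : LinearMap.ker g ≤ LinearMap.ker k := by
    intro z hz
    rw [LinearMap.mem_ker] at hz ⊢
    exact hb z fun l => congrFun hz l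
  obtain ⟨F, hF⟩ := hW.out ((LinearMap.ker g).liftQ g le_rfl)
    (by rw [← LinearMap.ker_eq_bot, Submodule.ker_liftQ_eq_bot _ _ _ le_rfl])
    ((LinearMap.ker g).liftQ k hker)
  have hF' : ∀ z, F (g z) = k z := by
    intro z
    have h1 := hF (Submodule.Quotient.mk z)
    rw [Submodule.liftQ_apply, Submodule.liftQ_apply] at h1
    exact h1
  refine ⟨fun l => F (Pi.single l 1), fun j => ?_⟩
  have h1 := hF' (Pi.single j 1)
  have h2 : g (Pi.single j 1) = ∑ l, A j l • (Pi.single l 1 : Fin m → Λ) := by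
    ext l'
    change ∑ i, (Pi.single j 1 : Fin e → Λ) i * A i l' = _
    rw [Finset.sum_eq_single j]
    · rw [Pi.single_eq_same, one_mul, Finset.sum_apply, Finset.sum_eq_single l']
      · rw [Pi.smul_apply, Pi.single_eq_same, smul_eq_mul, mul_one]
      · intro i _ hi
        rw [Pi.smul_apply, Pi.single_eq_of_ne hi.symm, smul_zero]
      · simp
    · intro i _ hi
      rw [Pi.single_eq_of_ne hi, zero_mul]
    · simp
  have h3 : k (Pi.single j 1) = b j := by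
    change ∑ i, (Pi.single j 1 : Fin e → Λ) i • b i = _
    rw [Finset.sum_eq_single j]
    · rw [Pi.single_eq_same, one_smul]
    · intro i _ hi
      rw [Pi.single_eq_of_ne hi, zero_smul]
    · simp
  rw [h2, h3, map_sum] at h1
  simp only [map_smul] at h1
  exact h1

/-- right multiplication after base change -/
theorem lTensor_mulRight {C₀ C A : Type*} [CommRing C₀] [CommRing C] [Algebra C₀ C] [Ring A]
    [Algebra C₀ A] (a : A) (x : C ⊗[C₀] A) :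
    (LinearMap.mulRight C₀ a).lTensor C x = x * (1 ⊗ₜ[C₀] a) := by
  induction x using TensorProduct.induction_on with
  | zero => rw [map_zero, zero_mul]
  | tmul c y =>
    rw [LinearMap.lTensor_tmul, LinearMap.mulRight_apply, Algebra.TensorProduct.tmul_mul_tmul,
      mul_one]
  | add x y hx hy => rw [map_add, hx, hy, add_mul]

section SAT

variable {C₀ C S₀ : Type u} [CommRing C₀] [CommRing C] [Algebra C₀ C] [Module.Flat C₀ C]
  [Ring S₀] [Algebra C₀ S₀] {J : Type v} {ε : J → C ⊗[C₀] Module.End S₀ᵐᵒᵖ (CC S₀ᵐᵒᵖ)}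
  (h : Corner (TensorProduct.map (LinearMap.id : C →ₗ[C₀] C) (thL C₀ S₀) :
    C ⊗[C₀] S₀ → C ⊗[C₀] Module.End S₀ᵐᵒᵖ (CC S₀ᵐᵒᵖ)) ε)
  {W : Type u} [AddCommGroup W] [Module (C ⊗[C₀] Module.End S₀ᵐᵒᵖ (CC S₀ᵐᵒᵖ)) W]

theorem ann_of_sat_flat (ψ : PP S₀) (v : h.cor W)
    (hv : (ψ.map fun s => (1 : C) ⊗ₜ[C₀] s).Sat v) :
    ∀ c ∈ ψ.dual (CC S₀ᵐᵒᵖ), ((1 : C) ⊗ₜ[C₀] cmod_h S₀ c) • (v : W) = 0 := by
  rintro c ⟨z, hz, hz'⟩
  obtain ⟨y, h1⟩ : ∃ y : Fin ψ.m → W, ∀ j, ((1 : C) ⊗ₜ[C₀] th S₀ (ψ.r j)) • (v : W) +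
      ∑ l, ((1 : C) ⊗ₜ[C₀] th S₀ (ψ.s j l)) • y l = 0 := by
    obtain ⟨y, hy⟩ := hv
    refine ⟨fun l => (y l : W), fun j => ?_⟩
    have h5 := congrArg (fun x : h.cor W => (x : W)) (hy j)
    simp only [AddSubgroup.coe_add, AddSubgroup.val_finsetSum, Corner.coe_smul,
      AddSubgroup.coe_zero] at h5
    exact h5
  have h2 : (1 : C) ⊗ₜ[C₀] cmod_h S₀ c =
      ∑ j, ((1 : C) ⊗ₜ[C₀] cmod_h S₀ (z j)) * ((1 : C) ⊗ₜ[C₀] th S₀ (ψ.r j)) := by
    rw [hz, cmod_h_sum, TensorProduct.tmul_sum]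
    refine Finset.sum_congr rfl fun j _ => ?_
    rw [Algebra.TensorProduct.tmul_mul_tmul, one_mul, cmod_h_th]
  have h3 : ∀ l, ∑ j, ((1 : C) ⊗ₜ[C₀] cmod_h S₀ (z j)) * ((1 : C) ⊗ₜ[C₀] th S₀ (ψ.s j l)) =
      0 := by
    intro l
    have h4 := congrArg (cmod_h S₀) (hz' l)
    rw [cmod_h_sum, cmod_h_zero] at h4
    have h5 : ∀ j, ((1 : C) ⊗ₜ[C₀] cmod_h S₀ (z j)) * ((1 : C) ⊗ₜ[C₀] th S₀ (ψ.s j l)) =
        (1 : C) ⊗ₜ[C₀] cmod_h S₀ (MulOpposite.op (ψ.s j l) • z j) := by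
      intro j
      rw [Algebra.TensorProduct.tmul_mul_tmul, one_mul, cmod_h_th]
    simp only [h5]
    rw [← TensorProduct.tmul_sum, h4, TensorProduct.tmul_zero]
  rw [h2, Finset.sum_smul]
  have h4 : ∀ j, (((1 : C) ⊗ₜ[C₀] cmod_h S₀ (z j)) * ((1 : C) ⊗ₜ[C₀] th S₀ (ψ.r j))) •
      (v : W) = - ∑ l, (((1 : C) ⊗ₜ[C₀] cmod_h S₀ (z j)) *
        ((1 : C) ⊗ₜ[C₀] th S₀ (ψ.s j l))) • y l := by
    intro j
    rw [mul_smul, eq_neg_of_add_eq_zero_left (h1 j), smul_neg, Finset.smul_sum]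
    simp only [mul_smul]
  rw [Finset.sum_congr rfl fun j _ => h4 j, Finset.sum_neg_distrib, Finset.sum_comm,
    neg_eq_zero]
  refine Finset.sum_eq_zero fun l _ => ?_
  rw [← Finset.sum_smul, h3]
  exact zero_smul (C ⊗[C₀] Module.End S₀ᵐᵒᵖ (CC S₀ᵐᵒᵖ)) (y l)

theorem sat_of_ann_flat
    (hW : Module.Injective (C ⊗[C₀] Module.End S₀ᵐᵒᵖ (CC S₀ᵐᵒᵖ)) W) (ψ : PP S₀) (v : h.cor W)
    (hv : ∀ c ∈ ψ.dual (CC S₀ᵐᵒᵖ), ((1 : C) ⊗ₜ[C₀] cmod_h S₀ c) • (v : W) = 0) :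
    (ψ.map fun s => (1 : C) ⊗ₜ[C₀] s).Sat v := by
  classical
  obtain ⟨y, hy⟩ := solve_of_injective hW
    (fun j l => (1 : C) ⊗ₜ[C₀] th S₀ (ψ.s j l))
    (fun j => - (((1 : C) ⊗ₜ[C₀] th S₀ (ψ.r j)) • (v : W))) (by
      intro c hc
      obtain ⟨n, x, z', hz', hcz⟩ := flat_tuples (C₀ := C₀) (C := C)
        (fun (j : Fin ψ.e) (l : Fin ψ.m) => LinearMap.mulRight C₀ (th S₀ (ψ.s j l))) c (by
          intro l
          rw [← hc l]
          exact Finset.sum_congr rfl fun j _ => lTensor_mulRight _ _)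
      simp only [LinearMap.mulRight_apply] at hz'
      have hth : ∀ (f : Module.End S₀ᵐᵒᵖ (CC S₀ᵐᵒᵖ)) (s : S₀), f * th S₀ s =
          cmod_h S₀ (MulOpposite.op s • f (cmod_u S₀)) := by
        intro f s
        rw [cmod_th, cmod_mul_h, map_smul]
      have h1 : ∀ i l, ∑ j, MulOpposite.op (ψ.s j l) • z' i j (cmod_u S₀) = 0 := by
        intro i l
        have h2 := hz' i l
        simp only [hth] at h2
        rw [← cmod_h_sum] at h2
        have h3 := congrArg (fun f : Module.End S₀ᵐᵒᵖ (CC S₀ᵐᵒᵖ) => f (cmod_u S₀)) h2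
        simp only [cmod_h_u] at h3
        exact h3
      have h4 : ∀ i, ((1 : C) ⊗ₜ[C₀] (∑ j, z' i j * th S₀ (ψ.r j))) • (v : W) = 0 := by
        intro i
        simp only [hth]
        rw [← cmod_h_sum]
        exact hv _ ⟨fun j => z' i j (cmod_u S₀), rfl, h1 i⟩
      have h5 : ∑ j, c j • (((1 : C) ⊗ₜ[C₀] th S₀ (ψ.r j)) • (v : W)) = 0 := by
        have h6 : ∀ j, c j • (((1 : C) ⊗ₜ[C₀] th S₀ (ψ.r j)) • (v : W)) =
            ∑ i, (x i ⊗ₜ[C₀] (1 : Module.End S₀ᵐᵒᵖ (CC S₀ᵐᵒᵖ))) •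
              (((1 : C) ⊗ₜ[C₀] (z' i j * th S₀ (ψ.r j))) • (v : W)) := by
          intro j
          rw [hcz j, Finset.sum_smul]
          refine Finset.sum_congr rfl fun i _ => ?_
          rw [← mul_smul, ← mul_smul, Algebra.TensorProduct.tmul_mul_tmul,
            Algebra.TensorProduct.tmul_mul_tmul, mul_one, one_mul]
        simp only [h6]
        rw [Finset.sum_comm]
        refine Finset.sum_eq_zero fun i _ => ?_
        rw [← Finset.smul_sum, ← Finset.sum_smul, ← TensorProduct.tmul_sum, h4, smul_zero]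
      simp only [smul_neg, Finset.sum_neg_distrib]
      rw [h5, neg_zero])
  set θ : C ⊗[C₀] S₀ → C ⊗[C₀] Module.End S₀ᵐᵒᵖ (CC S₀ᵐᵒᵖ) :=
    (TensorProduct.map (LinearMap.id : C →ₗ[C₀] C) (thL C₀ S₀) :
      C ⊗[C₀] S₀ → C ⊗[C₀] Module.End S₀ᵐᵒᵖ (CC S₀ᵐᵒᵖ)) with hθ
  refine ⟨fun l => ⟨θ 1 • y l, h.smul_mem_cor W 1 (y l)⟩, fun j => ?_⟩
  apply Subtype.ext
  have h1 : ∀ l, θ (1 ⊗ₜ[C₀] ψ.s j l) • (θ 1 • y l) = ((1 : C) ⊗ₜ[C₀] th S₀ (ψ.s j l)) • y l := by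
    intro l
    rw [← mul_smul, h.mul_one']
    rfl
  change ((((1 : C) ⊗ₜ[C₀] ψ.r j) • v + ∑ l, ((1 : C) ⊗ₜ[C₀] ψ.s j l) •
    (⟨θ 1 • y l, h.smul_mem_cor W 1 (y l)⟩ : h.cor W) : h.cor W) : W) = 0
  simp only [AddSubgroup.coe_add, AddSubgroup.val_finsetSum, Corner.coe_smul]
  rw [Finset.sum_congr rfl fun l _ => h1 l, hy j]
  exact add_neg_cancel _

end SAT

end Pool.Agent.Helper56.NB
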